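import Pool.Agent.Lib.MP_4d0de2_an.Area

/-!
# A surface with tangent planes that has no almost everywhere regular representation
-/

namespace Pool.Agent.Results.MP_4d0de2_an.PinchedDouble

open Set MeasureTheory Measure Filter Topology

/-- Euclidean three-space. -/
abbrev Space := EuclideanSpace ℝ (Fin 3)

/-- The plane `p + W` is a geometric tangent plane to `S` at `p`: `W` is a two-dimensional linear
subspace, and for every `ε > 0` there is a ball about `p` such that for every other point `q` of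
`S` in this ball the line through `p` and `q` makes an angle less than `ε` with `p + W`, that is,
the direction `q - p` makes an angle less than `ε` with some nonzero vector of `W`. -/
def IsTangentPlane (S : Set Space) (p : Space) (W : Submodule ℝ Space) : Prop :=
  Module.finrank ℝ W = 2 ∧ ∀ ε > 0, ∃ r > 0, ∀ q ∈ S, q ≠ p → dist q p < r →
    ∃ w ∈ W, w ≠ 0 ∧ InnerProductGeometry.angle (q - p) w < ε

/-- `X` on the planar domain `D` (a nonempty connected open set) is a continuous injective
parametrization with image `S`. -/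
def IsRepresentation (S : Set Space) (D : Set (ℝ × ℝ)) (X : ℝ × ℝ → Space) : Prop :=
  IsOpen D ∧ IsConnected D ∧ ContinuousOn X D ∧ InjOn X D ∧ X '' D = S

/-- Partial derivative of the `i`-th coordinate with respect to the first parameter. -/
noncomputable def du (X : ℝ × ℝ → Space) (i : Fin 3) (w : ℝ × ℝ) : ℝ :=
  deriv (fun s => X (s, w.2) i) w.1

/-- Partial derivative of the `i`-th coordinate with respect to the second parameter. -/
noncomputable def dv (X : ℝ × ℝ → Space) (i : Fin 3) (w : ℝ × ℝ) : ℝ :=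
  deriv (fun t => X (w.1, t) i) w.2

/-- The Jacobian of the coordinates `i`, `j` with respect to the parameters. -/
noncomputable def jac (X : ℝ × ℝ → Space) (i j : Fin 3) (w : ℝ × ℝ) : ℝ :=
  du X i w * dv X j w - dv X i w * du X j w

/-- All six first-order partial derivatives exist at `w`. -/
def HasPartials (X : ℝ × ℝ → Space) (w : ℝ × ℝ) : Prop :=
  ∀ i : Fin 3, DifferentiableAt ℝ (fun s => X (s, w.2) i) w.1 ∧
    DifferentiableAt ℝ (fun t => X (w.1, t) i) w.2

/-- The partial derivatives exist at `w` and the three Jacobians are not all zero there. -/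
def RegularAt (X : ℝ × ℝ → Space) (w : ℝ × ℝ) : Prop :=
  HasPartials X w ∧ ¬(jac X 1 2 w = 0 ∧ jac X 2 0 w = 0 ∧ jac X 0 1 w = 0)

open Pool.Agent.Lib.MP_4d0de2_an in
/-- no representation is regular at a point over the dust -/
theorem not_regular {D₁ : Set (ℝ × ℝ)} {X₁ : ℝ × ℝ → Space}
    (h : IsRepresentation (X '' univ) D₁ X₁) {w : ℝ × ℝ} (hw : w ∈ D₁) {s : ℕ → Bool}
    (hs : X₁ w = X (mm s, 0)) : ¬RegularAt X₁ w := by
  obtain ⟨ho, -, hc, hi, him⟩ := h
  rintro ⟨hp, hj⟩
  -- the transition map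
  have hX : ∀ w ∈ D₁, X (Function.invFun X (X₁ w)) = X₁ w := by
    intro w hw
    have : X₁ w ∈ X '' univ := by rw [← him]; exact mem_image_of_mem _ hw
    obtain ⟨u, -, hu⟩ := this
    exact Function.invFun_eq ⟨u, hu⟩
  have hΦ : ContinuousOn (fun w => Function.invFun X (X₁ w)) D₁ := by
    rw [isClosedEmbedding_X.isInducing.continuousOn_iff]
    exact hc.congr fun w hw => hX w hw
  -- the horizontal line
  obtain ⟨r, hr, hball⟩ := Metric.isOpen_iff.1 ho w hw
  have hline : ∀ t ∈ Ioo (w.1 - r) (w.1 + r), (t, w.2) ∈ D₁ := by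
    intro t ht
    apply hball
    rw [Metric.mem_ball, Prod.dist_eq, dist_self, max_lt_iff]
    refine ⟨?_, hr⟩
    rw [Real.dist_eq, abs_lt]
    constructor <;> linarith [ht.1, ht.2]
  have hcl : ContinuousOn (fun t : ℝ => Function.invFun X (X₁ (t, w.2)))
      (Ioo (w.1 - r) (w.1 + r)) :=
    hΦ.comp (continuous_id.prodMk continuous_const).continuousOn hline
  have hil : InjOn (fun t : ℝ => Function.invFun X (X₁ (t, w.2))) (Ioo (w.1 - r) (w.1 + r)) := by
    intro t ht t' ht' he
    have h1 : X₁ (t, w.2) = X₁ (t', w.2) := by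
      rw [← hX _ (hline t ht), ← hX _ (hline t' ht')]
      exact congrArg X he
    exact congrArg Prod.fst (hi (hline t ht) (hline t' ht') h1)
  have h0 : Function.invFun X (X₁ (w.1, w.2)) = (mm s, 0) := by
    rw [Prod.mk.eta, hs]
    exact Function.leftInverse_invFun X_injective _
  -- the derivative along the line
  have hd : DifferentiableAt ℝ (fun t => X₁ (t, w.2)) w.1 := by
    rw [differentiableAt_euclidean]
    exact fun i => (hp i).1
  have hd1 : HasDerivAt (fun t => X (Function.invFun X (X₁ (t, w.2))))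
      (deriv (fun t => X₁ (t, w.2)) w.1) w.1 := by
    refine hd.hasDerivAt.congr_of_eventuallyEq ?_
    filter_upwards [Ioo_mem_nhds (by linarith : w.1 - r < w.1) (by linarith : w.1 < w.1 + r)]
      with t ht
    exact hX _ (hline t ht)
  have hv := deriv_zero hr hcl hil h0 hd1
  have hdu : ∀ i, du X₁ i w = 0 := by
    intro i
    have h2 : HasDerivAt (fun t => X₁ (t, w.2)) 0 w.1 := by
      rw [← hv]; exact hd.hasDerivAt
    have h3 := (EuclideanSpace.proj (𝕜 := ℝ) (i := i) : Space →L[ℝ] ℝ).hasFDerivAt.comp_hasDerivAt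
      w.1 h2
    have h4 : HasDerivAt (fun t => X₁ (t, w.2) i) 0 w.1 := by
      rw [map_zero] at h3; exact h3
    rw [du, h4.deriv]
  apply hj
  refine ⟨?_, ?_, ?_⟩ <;> simp [jac, hdu]

/-- There is a surface `S` in space, given by a continuous injective parametrization on a planar
domain and having exactly one tangent plane at every point, such that for every representation of
`S` the set of parameters at which some partial derivative fails to exist or all three Jacobians
vanish has an image of positive surface measure. -/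
theorem result : ∃ (S : Set Space) (D : Set (ℝ × ℝ)) (X : ℝ × ℝ → Space),
    IsRepresentation S D X ∧ (∀ p ∈ S, ∃! W, IsTangentPlane S p W) ∧
    ∀ (D₁ : Set (ℝ × ℝ)) (X₁ : ℝ × ℝ → Space), IsRepresentation S D₁ X₁ →
      0 < μH[2] (X₁ '' {w ∈ D₁ | ¬RegularAt X₁ w}) := by
  refine ⟨Pool.Agent.Lib.MP_4d0de2_an.X '' univ, univ, Pool.Agent.Lib.MP_4d0de2_an.X,
    ⟨isOpen_univ, isConnected_univ, Pool.Agent.Lib.MP_4d0de2_an.continuous_X.continuousOn,
      Pool.Agent.Lib.MP_4d0de2_an.X_injective.injOn, rfl⟩, ?_, ?_⟩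
  · rintro _ ⟨u, -, rfl⟩
    obtain ⟨W, hW1, hW2⟩ := Pool.Agent.Lib.MP_4d0de2_an.exists_tangent u
    refine ⟨W, ⟨hW1, hW2⟩, ?_⟩
    rintro W' ⟨h1, h2⟩
    rw [Pool.Agent.Lib.MP_4d0de2_an.tangent_unique u h1 h2,
      Pool.Agent.Lib.MP_4d0de2_an.tangent_unique u hW1 hW2]
  · intro D₁ X₁ h
    refine lt_of_lt_of_le Pool.Agent.Lib.MP_4d0de2_an.area_pos (measure_mono ?_)
    rintro _ ⟨s, rfl⟩
    rw [← Pool.Agent.Lib.MP_4d0de2_an.X_mm]
    have h1 : Pool.Agent.Lib.MP_4d0de2_an.X (Pool.Agent.Lib.MP_4d0de2_an.mm s, 0) ∈ X₁ '' D₁ := by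
      rw [h.2.2.2.2]
      exact mem_image_of_mem _ (mem_univ _)
    obtain ⟨w, hw, hwe⟩ := h1
    exact ⟨w, ⟨hw, not_regular h hw hwe⟩, hwe⟩

end Pool.Agent.Results.MP_4d0de2_an.PinchedDouble
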